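import Pool.Agent.H79.ISHS.Defs
import Pool.Agent.H40.ISH.Core2

/-! The short definitions of `Pool.ISHS` agree with those of `Pool.ISH`. -/

namespace Pool.ISHS

open MeasureTheory Filter Topology
open scoped Classical Pointwise

theorem ind_pos {p : Prop} (h : p) : ind p = 1 := by simp [ind, h]
theorem ind_neg {p : Prop} (h : ¬ p) : ind p = 0 := by simp [ind, h]

theorem up_eq (x : Fin 3 → ℤ) (i : Fin 3) : up x i = x + ISH.ev i := by
  funext j
  by_cases h : j = i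
  · subst h; simp [up, ISH.ev, ind]
  · simp [up, ISH.ev, ind, h]

theorem Qb_eq (x : Fin 3 → ℤ) (r : ℕ) : Qb x r = ISH.Qb x r := by
  ext y
  simp only [Qb, ISH.Qb, Fintype.mem_piFinset, Finset.mem_Icc, Pi.le_def, forall_and]

theorem Vb_eq (N : ℕ) : Vb N = ISH.Vb N := by
  simp only [Vb, ISH.Vb, Qb_eq]; rfl

theorem spin_eq (N : ℕ) (A : Finset (Fin 3 → ℤ)) (x : Fin 3 → ℤ) :
    spin N A x = ISH.spin N A x := by
  unfold spin plus ISH.spin
  rw [Vb_eq]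
  by_cases h1 : x ∈ ISH.Vb N
  · by_cases h2 : x ∈ A
    · simp [ind, h1, h2]
    · simp [ind, h1, h2]
  · by_cases h2 : x 2 ≤ 0
    · simp [ind, h1, h2, c2]
    · simp [ind, h1, h2, c2]

theorem energy_eq (N : ℕ) (A : Finset (Fin 3 → ℤ)) : energy N A = ISH.energy N A := by
  unfold energy ISH.energy ISH.BV
  rw [Finset.sum_filter, Finset.sum_product, Qb_eq]
  congr 1
  refine Finset.sum_congr rfl fun x _ => Finset.sum_congr rfl fun i _ => ?_
  simp only [ISH.lo, ISH.hi, up_eq, Vb_eq, spin_eq, ind]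
  split_ifs <;> simp

theorem magn_eq (N : ℕ) (A : Finset (Fin 3 → ℤ)) : magn N A = ISH.magn N A := by
  simp only [magn, ISH.magn, Vb_eq, spin_eq]

theorem gsum_eq (β : ℝ) (N : ℕ) (m : ℤ) (S : Finset (Fin 3 → ℤ) → Prop) :
    gsum β N m S = ISH.gsum β N m S := by
  unfold gsum ISH.gsum
  rw [Finset.sum_filter, Vb_eq]
  refine Finset.sum_congr rfl fun A _ => ?_
  simp only [magn_eq, energy_eq, ind]
  split_ifs <;> simp

theorem prob_eq (β : ℝ) (N : ℕ) (m : ℤ) (S : Finset (Fin 3 → ℤ) → Prop) :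
    prob β N m S = ISH.prob β N m S := by
  simp only [prob, ISH.prob, gsum_eq]

theorem isNearest_iff (N : ℕ) (t : ℝ) (m : ℤ) : IsNearest N t m ↔ ISH.IsNearest N t m := by
  simp only [IsNearest, ISH.IsNearest, Vb_eq, magn_eq]

theorem plaq_eq (x : Fin 3 → ℤ) (i : Fin 3) :
    ((WithLp.ofLp : EuclideanSpace ℝ (Fin 3) → (Fin 3 → ℝ)) ⁻¹' plaq x i) = ISH.plaq (x, i) := rfl

theorem Vbar_eq (N : ℕ) : Vbar N = ISH.Vbar N := by
  ext x
  simp only [Vbar, ISH.Vbar, Set.mem_ofPred_eq, Vb_eq, up_eq]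
  refine or_congr_right (exists_congr fun i => or_congr_right ⟨?_, fun h => ?_⟩)
  · rintro ⟨z, hz, rfl⟩
    simpa using hz
  · exact ⟨_, h, by simp⟩

theorem contours_eq (N : ℕ) (A : Finset (Fin 3 → ℤ)) :
    ((WithLp.ofLp : EuclideanSpace ℝ (Fin 3) → (Fin 3 → ℝ)) ⁻¹' contours N A)
      = ISH.contours N A := by
  ext y
  simp only [contours, ISH.contours, Set.mem_preimage, Set.mem_ofPred_eq, Vbar_eq, spin_eq, up_eq]
  constructor
  · rintro ⟨x, i, h1, h2, h3, h4⟩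
    exact ⟨(x, i), h1, h2, h3, h4⟩
  · rintro ⟨⟨x, i⟩, h1, h2, h3, h4⟩
    exact ⟨x, i, h1, h2, h3, h4⟩

theorem p0_eq (N : ℕ) : (ISH.p0 N).ofLp = p0 N := rfl

/-- the identity from Euclidean space to `Fin 3 → ℝ` -/
noncomputable def hom : EuclideanSpace ℝ (Fin 3) ≃ₜ (Fin 3 → ℝ) :=
  PiLp.homeomorph 2 (fun _ : Fin 3 => ℝ)

theorem Gamma_eq (N : ℕ) (A : Finset (Fin 3 → ℤ)) :
    ((WithLp.ofLp : EuclideanSpace ℝ (Fin 3) → (Fin 3 → ℝ)) ⁻¹' Gamma N A) = ISH.Gamma N A := by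
  have key : ∀ s : Set (Fin 3 → ℝ), ∀ p : EuclideanSpace ℝ (Fin 3),
      (hom ⁻¹' connectedComponentIn s (hom p)) = connectedComponentIn (hom ⁻¹' s) p := by
    intro s p
    by_cases hp : hom p ∈ s
    · have h := hom.symm.image_connectedComponentIn (x := hom p) hp
      rw [Homeomorph.image_symm, Homeomorph.symm_apply_apply] at h
      exact h
    · rw [connectedComponentIn_eq_empty hp, connectedComponentIn_eq_empty (by exact hp)]
      rfl
  have h := key (contours N A) (ISH.p0 N)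
  exact h.trans (by rw [ISH.Gamma, ← contours_eq]; rfl)

theorem ofLp_surj : Function.Surjective
    (WithLp.ofLp : EuclideanSpace ℝ (Fin 3) → (Fin 3 → ℝ)) := fun y => ⟨WithLp.toLp 2 y, rfl⟩

theorem plaq_sub (N : ℕ) (A : Finset (Fin 3 → ℤ)) (x : Fin 3 → ℤ) (i : Fin 3) :
    ISH.plaq (x, i) ⊆ ISH.Gamma N A ↔ plaq x i ⊆ Gamma N A := by
  rw [← plaq_eq, ← Gamma_eq]
  exact ofLp_surj.preimage_subset_preimage_iff

theorem below_eq (N : ℕ) (A : Finset (Fin 3 → ℤ)) : below N A = ISH.below N A := by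
  ext x
  simp only [below, ISH.below, Set.mem_ofPred_eq, Vb_eq]
  have : {b : (Fin 3 → ℤ) × Fin 3 | ISH.plaq b ⊆ ISH.Gamma N A ∧ b.2 = 2 ∧ b.1 0 = x 0 ∧
      b.1 1 = x 1 ∧ b.1 2 < x 2} = (fun z : Fin 3 → ℤ => (z, (2 : Fin 3))) ''
      {z | plaq z c2 ⊆ Gamma N A ∧ z c0 = x c0 ∧ z c1 = x c1 ∧ z c2 < x c2} := by
    ext ⟨z, i⟩
    simp only [Set.mem_ofPred_eq, Set.mem_image, Prod.mk.injEq]
    constructor
    · rintro ⟨h1, rfl, h3⟩
      exact ⟨z, ⟨(plaq_sub N A z 2).1 h1, h3⟩, rfl, rfl⟩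
    · rintro ⟨z', ⟨h1, h3⟩, rfl, rfl⟩
      exact ⟨(plaq_sub N A z' 2).2 h1, rfl, h3⟩
  have h2 := Set.ncard_image_of_injective
    {z | plaq z c2 ⊆ Gamma N A ∧ z c0 = x c0 ∧ z c1 = x c1 ∧ z c2 < x c2}
    (f := fun z : Fin 3 → ℤ => (z, (2 : Fin 3))) (fun a b h => (Prod.mk.inj h).1)
  rw [this, h2]
  rfl

theorem cnt_eq (D : Set (Fin 3 → ℤ)) (x : Fin 3 → ℤ) (r : ℕ) :
    {y | y ∈ Qb x r ∧ y ∈ D}.ncard = ISH.cnt D x r := by
  unfold ISH.cnt
  rw [← Set.ncard_coe_finset, Qb_eq]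
  congr 1
  ext y
  simp

theorem dense_iff (δ : ℝ) (R₀ N : ℕ) (A : Finset (Fin 3 → ℤ)) :
    Dense δ R₀ N A ↔ ISH.Dense δ R₀ N A := by
  unfold Dense ISH.Dense
  constructor
  · rintro h ⟨x, i⟩ hb c hc R hR
    have := h x i ((plaq_sub N A x i).1 hb) c (by simpa [up_eq, ISH.lo, ISH.hi] using hc) R hR
    rw [← cnt_eq, ← cnt_eq, ← below_eq]
    exact this
  · intro h x i hb c hc R hR
    have := h (x, i) ((plaq_sub N A x i).2 hb) c (by simpa [up_eq, ISH.lo, ISH.hi] using hc) R hR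
    rw [← cnt_eq, ← cnt_eq, ← below_eq] at this
    exact this

theorem Qc_eq : ((WithLp.ofLp : EuclideanSpace ℝ (Fin 3) → (Fin 3 → ℝ)) ⁻¹' Qc) = ISH.Qc := rfl

theorem shape_eq (b : ℝ) :
    ((WithLp.ofLp : EuclideanSpace ℝ (Fin 3) → (Fin 3 → ℝ)) ⁻¹' shape (b / 8)) = ISH.shape b := rfl

theorem vol_eq (s : Set (Fin 3 → ℝ)) :
    volume ((WithLp.ofLp : EuclideanSpace ℝ (Fin 3) → (Fin 3 → ℝ)) ⁻¹' s) = vol s :=
  (PiLp.volume_preserving_ofLp (Fin 3)).measure_preimage_equiv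
    (f := (MeasurableEquiv.toLp 2 (Fin 3 → ℝ)).symm) s

theorem vdist_eq (N : ℕ) (A : Finset (Fin 3 → ℤ)) (K : Set (Fin 3 → ℝ)) :
    ISH.vdist N A ((WithLp.ofLp : EuclideanSpace ℝ (Fin 3) → (Fin 3 → ℝ)) ⁻¹' K) = vdist N A K := by
  unfold vdist ISH.vdist
  rw [← vol_eq]
  unfold ISH.region region
  rw [← below_eq]
  rfl

theorem surface_eq (K : Set (Fin 3 → ℝ)) :
    ((WithLp.ofLp : EuclideanSpace ℝ (Fin 3) → (Fin 3 → ℝ)) ⁻¹' surface K)
      = ISH.surface ((WithLp.ofLp : EuclideanSpace ℝ (Fin 3) → (Fin 3 → ℝ)) ⁻¹' K) := by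
  ext y
  simp only [surface, ISH.surface, Set.mem_preimage, Set.mem_ofPred_eq]
  refine and_congr Iff.rfl ?_
  have hle : ∀ z : EuclideanSpace ℝ (Fin 3), ∀ i, |z i - y i| ≤ dist z y := by
    intro z i
    have := PiLp.norm_apply_le (z - y) i
    rw [dist_eq_norm]
    simpa using this
  have hge : ∀ z : EuclideanSpace ℝ (Fin 3), ∀ r : ℝ, 0 < r → (∀ i, |z i - y i| < r) →
      dist z y < 2 * r := by
    intro z r hr h
    rw [EuclideanSpace.dist_eq, Real.sqrt_lt' (by positivity), Fin.sum_univ_three]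
    have h' : ∀ i, dist (z i) (y i) ^ 2 < r ^ 2 := by
      intro i
      have := h i
      rw [Real.dist_eq]
      exact pow_lt_pow_left₀ this (abs_nonneg _) (by norm_num)
    have := h' 0
    have := h' 1
    have := h' 2
    nlinarith
  have hm : ∀ (E : Set (Fin 3 → ℝ)), (∀ r : ℝ, 0 < r →
      0 < vol {z | z ∈ E ∧ ∀ i, |z i - y.ofLp i| < r}) ↔ (∀ r : ℝ, 0 < r →
      0 < volume (Metric.ball y r ∩ (WithLp.ofLp : EuclideanSpace ℝ (Fin 3) → (Fin 3 → ℝ)) ⁻¹' E)) := by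
    intro E
    constructor
    · intro h r hr
      have := h (r / 2) (by positivity)
      rw [← vol_eq] at this
      refine lt_of_lt_of_le this (measure_mono ?_)
      intro z hz
      refine ⟨?_, hz.1⟩
      have := hge z (r / 2) (by positivity) hz.2
      rw [Metric.mem_ball]
      linarith
    · intro h r hr
      have := h r hr
      rw [← vol_eq]
      refine lt_of_lt_of_le this (measure_mono ?_)
      rintro z ⟨hz1, hz2⟩
      exact ⟨hz2, fun i => lt_of_le_of_lt (hle z i) (Metric.mem_ball.1 hz1)⟩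
  have h1 := hm (extend K)
  have h2 := hm (extend K)ᶜ
  constructor
  · intro h r hr
    exact ⟨h1.1 (fun r hr => (h r hr).1) r hr, h2.1 (fun r hr => (h r hr).2) r hr⟩
  · intro h r hr
    exact ⟨h1.2 (fun r hr => (h r hr).1) r hr, h2.2 (fun r hr => (h r hr).2) r hr⟩

theorem hdist_eq (N : ℕ) (hN : 0 < N) (A : Finset (Fin 3 → ℤ)) (S : Set (Fin 3 → ℝ)) :
    hdist N A S = Metric.hausdorffDist ((N : ℝ)⁻¹ • ISH.Gamma N A)
      ((WithLp.ofLp : EuclideanSpace ℝ (Fin 3) → (Fin 3 → ℝ)) ⁻¹' S) := by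
  unfold hdist
  congr 1
  have hN' : (N : ℝ) ≠ 0 := by positivity
  ext y
  rw [← Gamma_eq, Set.mem_inv_smul_set_iff₀ hN']
  simp only [Set.mem_ofPred_eq, Set.mem_preimage]
  constructor
  · rintro ⟨z, hz, h⟩
    have : ((N : ℝ) • y).ofLp = z := by
      funext i
      simpa using h i
    rw [this]
    exact hz
  · intro h
    exact ⟨_, h, fun i => by simp⟩

end Pool.ISHS
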