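import Mathlib

/-!
The three-dimensional Ising model in a box with Dobrushin boundary conditions and fixed
magnetisation, its interface, the two sides of the interface, and the limit objects.
Definitions only.  Sites are functions `Fin 3 → ℤ` and points of space are functions `Fin 3 → ℝ`.
-/

set_option linter.unusedVariables false

namespace Pool.ISHS

open MeasureTheory
open scoped Classical

/-- the first coordinate -/
def c0 : Fin 3 := 0

/-- the second coordinate -/
def c1 : Fin 3 := 1

/-- the third coordinate, which is the vertical one -/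
def c2 : Fin 3 := 2

/-- one half -/
noncomputable def half : ℝ := 1 / 2

/-- `1` if `p` holds and `0` otherwise -/
noncomputable def ind (p : Prop) : ℤ := if p then 1 else 0

/-- the neighbour of the site `x` in the direction of the unit vector number `i` -/
noncomputable def up (x : Fin 3 → ℤ) (i : Fin 3) : Fin 3 → ℤ := fun j => x j + ind (j = i)

/-- the cube of sites with centre `x` and half side `r` -/
noncomputable def Qb (x : Fin 3 → ℤ) (r : ℕ) : Finset (Fin 3 → ℤ) :=
  Fintype.piFinset fun i => Finset.Icc (x i - r) (x i + r)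

/-- the box `[-N, N]^3` -/
noncomputable def Vb (N : ℕ) : Finset (Fin 3 → ℤ) := Qb (fun _ => 0) N

/-- `x` is a plus site of the configuration whose plus sites in the box are the members of `A`, with
Dobrushin boundary conditions: outside of the box the plus sites are those with non-positive
third coordinate -/
def plus (N : ℕ) (A : Finset (Fin 3 → ℤ)) (x : Fin 3 → ℤ) : Prop :=
  (x ∈ Vb N ∧ x ∈ A) ∨ (x ∉ Vb N ∧ x c2 ≤ 0)

/-- the spin at `x` -/
noncomputable def spin (N : ℕ) (A : Finset (Fin 3 → ℤ)) (x : Fin 3 → ℤ) : ℤ :=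
  ind (plus N A x) - ind (¬ plus N A x)

/-- the energy of a configuration (coupling `1`, no external field): minus the sum of the products
of the spins at the ends of the bonds which have at least one end in the box -/
noncomputable def energy (N : ℕ) (A : Finset (Fin 3 → ℤ)) : ℤ :=
  - ∑ x ∈ Qb (fun _ => 0) (N + 1), ∑ i : Fin 3,
    ind (x ∈ Vb N ∨ up x i ∈ Vb N) * (spin N A x * spin N A (up x i))

/-- the magnetisation of a configuration in the box -/
noncomputable def magn (N : ℕ) (A : Finset (Fin 3 → ℤ)) : ℤ := ∑ x ∈ Vb N, spin N A x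

/-- the sum of the Gibbs weights at inverse temperature `β` of the configurations with
magnetisation `m` and the property `S` -/
noncomputable def gsum (β : ℝ) (N : ℕ) (m : ℤ) (S : Finset (Fin 3 → ℤ) → Prop) : ℝ :=
  ∑ A ∈ (Vb N).powerset, ind (magn N A = m ∧ S A) * Real.exp (-(β * energy N A))

/-- the probability of the property `S` for the Gibbs measure at inverse temperature `β`,
conditioned on the magnetisation being `m` -/
noncomputable def prob (β : ℝ) (N : ℕ) (m : ℤ) (S : Finset (Fin 3 → ℤ) → Prop) : ℝ :=
  gsum β N m S / gsum β N m (fun _ => True)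

/-- `m` is an attainable value of the magnetisation which is nearest to `t` -/
def IsNearest (N : ℕ) (t : ℝ) (m : ℤ) : Prop := (∃ A ⊆ Vb N, magn N A = m) ∧
  ∀ A ⊆ Vb N, |m - t| ≤ |magn N A - t|

/-! ### the interface -/

/-- the closed unit plaquette dual to the bond between `x` and `up x i`: the common face of the
unit cubes with these centres -/
def plaq (x : Fin 3 → ℤ) (i : Fin 3) : Set (Fin 3 → ℝ) :=
  {y | y i = x i + half ∧ ∀ j, j ≠ i → |y j - x j| ≤ half}

/-- the sites of the box and the sites adjacent to it (where the boundary spins are) -/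
def Vbar (N : ℕ) : Set (Fin 3 → ℤ) :=
  {x | x ∈ Vb N ∨ ∃ i, up x i ∈ Vb N ∨ ∃ z ∈ Vb N, x = up z i}

/-- the union of the plaquettes dual to the bonds whose ends carry opposite spins -/
def contours (N : ℕ) (A : Finset (Fin 3 → ℤ)) : Set (Fin 3 → ℝ) :=
  {y | ∃ x i, x ∈ Vbar N ∧ up x i ∈ Vbar N ∧ spin N A x ≠ spin N A (up x i) ∧ y ∈ plaq x i}

/-- the centre of a plaquette forced by the change of the boundary condition: the one dual to the
bond between the boundary sites `(N + 1, 0, 0)` and `(N + 1, 0, 1)` -/
noncomputable def p0 (N : ℕ) : Fin 3 → ℝ := ![N + 1, 0, half]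

/-- the interface: the connected component of the set of contours which contains the plaquettes
forced by the change of the boundary condition -/
def Gamma (N : ℕ) (A : Finset (Fin 3 → ℤ)) : Set (Fin 3 → ℝ) :=
  connectedComponentIn (contours N A) (p0 N)

/-- the set of sites below the interface: in the box these are the sites `x` for which the vertical
half line from `x` downwards crosses an even number of plaquettes of the interface; outside of the
box, the sites with non-positive third coordinate -/
def below (N : ℕ) (A : Finset (Fin 3 → ℤ)) : Set (Fin 3 → ℤ) :=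
  {x | (x ∈ Vb N ∧
      Even {z | plaq z c2 ⊆ Gamma N A ∧ z c0 = x c0 ∧ z c1 = x c1 ∧ z c2 < x c2}.ncard) ∨
    (x ∉ Vb N ∧ x c2 ≤ 0)}

/-- Density property: for all plaquettes of the interface and all `R ≥ R₀`, each of the two sides
of the interface contains at least `δ R ^ 3` sites of the cube of half side `R` around the ends of
the bond dual to the plaquette -/
def Dense (δ : ℝ) (R₀ N : ℕ) (A : Finset (Fin 3 → ℤ)) : Prop :=
  ∀ x i, plaq x i ⊆ Gamma N A → ∀ c, (c = x ∨ c = up x i) → ∀ R : ℕ, R₀ ≤ R →
    δ * R ^ 3 ≤ {y | y ∈ Qb c R ∧ y ∈ below N A}.ncard ∧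
    δ * R ^ 3 ≤ {y | y ∈ Qb c R ∧ y ∉ below N A}.ncard

/-! ### limits -/

/-- the Hausdorff distance, for the Euclidean metric, of `Γ / N` and `S` -/
noncomputable def hdist (N : ℕ) (A : Finset (Fin 3 → ℤ)) (S : Set (Fin 3 → ℝ)) : ℝ :=
  Metric.hausdorffDist {y : EuclideanSpace ℝ (Fin 3) | ∃ z ∈ Gamma N A, ∀ i, N * y i = z i}
    {y : EuclideanSpace ℝ (Fin 3) | y.ofLp ∈ S}

/-- the cube `[-1, 1]^3` -/
def Qc : Set (Fin 3 → ℝ) := {y | ∀ i, |y i| ≤ 1}

/-- the horizontal square at height `h` together with the parts of the lateral faces of the cube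
`[-1, 1]^3` between the heights `0` and `h` -/
def shape (h : ℝ) : Set (Fin 3 → ℝ) :=
  {y | y ∈ Qc ∧ (y c2 = h ∨ (0 ≤ y c2 ∧ y c2 ≤ h ∧ (|y c0| = 1 ∨ |y c1| = 1)))}

/-- volume -/
noncomputable def vol (s : Set (Fin 3 → ℝ)) : ENNReal := volume s

/-- the region of `[-1, 1]^3` below the rescaled interface -/
def region (N : ℕ) (A : Finset (Fin 3 → ℤ)) : Set (Fin 3 → ℝ) :=
  {y | y ∈ Qc ∧ (fun i => round (N * y i)) ∈ below N A}

/-- the volume between the rescaled interface and the boundary of the region `K` -/
noncomputable def vdist (N : ℕ) (A : Finset (Fin 3 → ℤ)) (K : Set (Fin 3 → ℝ)) : ENNReal :=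
  vol {y | y ∈ Qc ∧ ¬ (y ∈ region N A ↔ y ∈ K)}

/-- the set `K` in `[-1, 1]^3`, extended by the lower half space outside of `[-1, 1]^3` -/
def extend (K : Set (Fin 3 → ℝ)) : Set (Fin 3 → ℝ) :=
  {y | (y ∈ Qc ∧ y ∈ K) ∨ (y ∉ Qc ∧ y c2 ≤ 0)}

/-- the boundary surface of the region `K` of `[-1, 1]^3`: the set of all points of `[-1, 1]^3`
all neighbourhoods of which meet both `K`, extended by the boundary condition, and its complement
in a set of positive volume -/
def surface (K : Set (Fin 3 → ℝ)) : Set (Fin 3 → ℝ) :=
  {y | y ∈ Qc ∧ ∀ r : ℝ, 0 < r → 0 < vol {z | z ∈ extend K ∧ ∀ i, |z i - y i| < r} ∧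
    0 < vol {z | z ∉ extend K ∧ ∀ i, |z i - y i| < r}}

end Pool.ISHS
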