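import Pool.Agent.H79.ISHS.Conv
import Pool.Agent.H40.ISH.All2

/-! The low temperature theorem in terms of the short definitions. -/

namespace Pool.ISHS

open MeasureTheory Filter Topology
open scoped Classical Pointwise

theorem lts : ∀ ε : ℝ, 0 < ε → ∃ β₀ : ℝ, ∀ β ≥ β₀, ∀ b : ℝ, 0 ≤ b → b ≤ 1 → ∀ m : ℕ → ℤ,
    (∀ N, IsNearest N (b * N ^ 3) (m N)) →
    Tendsto (fun N => prob β N (m N) (fun A => ε < hdist N A (shape (b / 8)))) atTop (𝓝 0) := by
  intro ε hε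
  obtain ⟨β₀, h⟩ := ISH.t_t4 ε hε
  refine ⟨β₀, fun β hβ b hb0 hb1 m hm => ?_⟩
  refine (h β hβ b hb0 hb1 m (fun N => (isNearest_iff _ _ _).1 (hm N))).congr' ?_
  filter_upwards [eventually_gt_atTop 0] with N hN
  rw [prob_eq]
  congr 1
  funext A
  rw [hdist_eq N hN, shape_eq]

end Pool.ISHS
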