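import Pool.Agent.H79.ISHS.Conv
import Pool.Agent.H40.ISH.Final

/-! The theorems about the interface in terms of the short definitions. -/

namespace Pool.ISHS

open MeasureTheory Filter Topology
open scoped Classical Pointwise

theorem vth : ∃ β₀ : ℝ, ∀ β ≥ β₀, ∀ b : ℝ, 0 ≤ b → b ≤ 1 → ∀ m : ℕ → ℤ,
    (∀ N, IsNearest N (b * N ^ 3) (m N)) → ∀ K : Set (Fin 3 → ℝ), MeasurableSet K →
    (∀ η : ENNReal, 0 < η →
      Tendsto (fun N => prob β N (m N) (fun A => η < vdist N A K)) atTop (𝓝 0)) →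
    (IsCompact (surface K) ∧ surface K ⊆ Qc ∧
      ∀ y ∈ Qc, y c2 = 0 → (|y c0| = 1 ∨ |y c1| = 1) → y ∈ surface K) ∧
    ∀ ε : ℝ, 0 < ε →
      Tendsto (fun N => prob β N (m N) (fun A => ε < hdist N A (surface K))) atTop (𝓝 0) := by
  obtain ⟨β₀, h⟩ := ISH.t_t2
  refine ⟨β₀, fun β hβ b hb0 hb1 m hm K hK hvol => ?_⟩
  have hK' : MeasurableSet
      ((WithLp.ofLp : EuclideanSpace ℝ (Fin 3) → (Fin 3 → ℝ)) ⁻¹' K) :=
    (WithLp.measurable_ofLp 2 (Fin 3 → ℝ)) hK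
  have hs := ISH.sur _ hK'
  have h' := h β hβ b hb0 hb1 m (fun N => (isNearest_iff _ _ _).1 (hm N)) _ hK'
    (by simpa only [prob_eq, vdist_eq] using hvol)
  refine ⟨⟨?_, fun y hy => hy.1, ?_⟩, fun ε hε => ?_⟩
  · have h1 := hs.1
    rw [← surface_eq] at h1
    have h2 := h1.image (PiLp.continuous_ofLp 2 (fun _ : Fin 3 => ℝ))
    rwa [Set.image_preimage_eq _ ofLp_surj] at h2
  · intro y hy h0 h1
    have := hs.2 (WithLp.toLp 2 y) hy h0 h1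
    rw [← surface_eq] at this
    exact this
  · refine (h' ε hε).congr' ?_
    filter_upwards [eventually_gt_atTop 0] with N hN
    rw [prob_eq]
    congr 1
    funext A
    rw [hdist_eq N hN, surface_eq]

theorem den : ∃ β₀ δ : ℝ, 0 < δ ∧ ∀ β ≥ β₀, ∀ b : ℝ, 0 ≤ b → b ≤ 1 → ∀ m : ℕ → ℤ,
    (∀ N, IsNearest N (b * N ^ 3) (m N)) →
    Tendsto (fun N => prob β N (m N) (fun A => Dense δ ((Nat.log 2 N + 1) ^ 6) N A))
      atTop (𝓝 1) := by
  obtain ⟨β₀, δ, hδ, h⟩ := ISH.t_t1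
  refine ⟨β₀, δ, hδ, fun β hβ b hb0 hb1 m hm => ?_⟩
  simpa only [prob_eq, dense_iff] using
    h β hβ b hb0 hb1 m (fun N => (isNearest_iff _ _ _).1 (hm N))

end Pool.ISHS
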